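import Pool.Agent.MWGN.StmtsC

/-!
# MWGN, row VEQ: no `x` inside the run is kept
-/

set_option autoImplicit false

namespace Pool.Agent.MWGN.H35

open Pool.Agent.Helper14_MV Pool.Agent.Helper2_MV Pool.Agent.MWGN
open Pool.Agent.MWK (pre Gw)

theorem bs_congr {L C : ℕ → List ℕ} {X : List ℕ} {s s' : ℕ → Bool} : ∀ {r : ℕ},
    (∀ i < r, s i = s' i) → bs L C X s r = bs L C X s' r
  | 0, _ => rfl
  | r + 1, h => by
    have ih : bs L C X s r = bs L C X s' r := bs_congr (fun i hi => h i (by omega))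
    unfold bs at ih ⊢
    rw [List.range_succ, List.flatMap_append, List.flatMap_append, ih]
    simp only [List.flatMap_cons, List.flatMap_nil, h r (by omega)]

theorem ws_congr {X B : List ℕ} {S L C : ℕ → List ℕ} {s s' : ℕ → Bool} {τ : List ℕ} {r : ℕ}
    (h : ∀ i < r, s i = s' i) : ws X B S L C s τ r = ws X B S L C s' τ r := by
  unfold ws
  rw [bs_congr h]

theorem rtr {β : FIC} {a b c : List ℕ} (h : RR β a b) (h' : RR β b c) : RR β a c :=
  β.trans h h'

/-- ROW VEQ -/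
theorem veq (h1 : NofStmt) (h2 : NogStmt) (h3 : DsrStmt) (h4 : RnfStmt) (h5 : FspStmt) :
    VeqStmt := by
  intro β hβ ν τ r hNr hT hF hnF w w' hww hw ht hw' ht' he
  by_contra hn
  apply hnF
  have hnd : (nr ν r).Nodup := h3 ν τ r hNr hT w hw ht
  obtain ⟨i, j, U, f, hi, hj, hU, hf, e1, q1⟩ := h1 ν τ r hNr hT w hw ht
  obtain ⟨i', j', U', f', hi', hj', hU', hf', e2, q2⟩ := h1 ν τ r hNr hT w' hw' ht'
  have a1 := q1.1 he
  have a2 : ∃ s < r, ν.x ∈ U' s := by
    by_contra hc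
    push Not at hc
    exact hn (q2.2 hc)
  have g1 := h2 β hβ ν τ r hnd hT i j U f hi hj hU hf
  have g2 := h2 β hβ ν τ r hnd hT i' j' U' f' hi' hj' hU' hf'
  have hfil := RR.filter (fun c => decide (c ∈ nr ν r)) hww
  rw [e1, e2] at hfil
  have hsub := RR.sub (fun c => if c = ν.x then [ν.x, ν.x] else [c]) hfil
  have hfin : RR β (ws [ν.x] [ν.b] (sg ν.S) (sg ν.L) (sg ν.C) (fun _ => false) τ r)
      (ws [ν.x] [ν.b] (sg ν.S) (sg ν.L) (sg ν.C) (fun _ => true) τ r) := by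
    have e3 : ws [ν.x] [ν.b] (sg ν.S) (sg ν.L) (sg ν.C) (fun _ => false) τ r =
        ws [ν.x] [ν.b] (sg ν.S) (sg ν.L) (sg ν.C) (fun s => decide (ν.x ∈ U s)) τ r := by
      apply ws_congr
      intro s hs
      exact (decide_eq_false (a1 s hs)).symm
    rw [e3]
    refine rtr (RR.symm g1) (rtr hsub (rtr g2 ?_))
    exact h5 β hβ r hF τ hT _ (by
      obtain ⟨s, hs, hs2⟩ := a2
      exact ⟨s, hs, decide_eq_true hs2⟩) _ _ _ _ _
  exact h4 β ν τ r hT hnd hfin

end Pool.Agent.MWGN.H35
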